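import Pool.Agent.SZG.StmtsY

/-!
# Squad SZG, row SLC (helper39)
-/

set_option autoImplicit false

namespace Pool.Agent.SZG.H39

open scoped BigOperators
open Pool.Agent.SZG

theorem slc : SlcStmt := by
  intro α _ S e m w E0 hE0 hw hm hS
  have hE : (0 : ℝ) < E0 := by exact_mod_cast hE0
  have h1 : ∑ v ∈ S, (e v : ℝ) / (m v : ℝ) * w v =
      ∑ v ∈ S.filter (fun v => m v ≤ E0), (e v : ℝ) / (m v : ℝ) * w v +
        ∑ v ∈ S.filter (fun v => ¬ m v ≤ E0), (e v : ℝ) / (m v : ℝ) * w v :=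
    (Finset.sum_filter_add_sum_filter_not S (fun v => m v ≤ E0) _).symm
  have h2 : ∑ v ∈ S.filter (fun v => m v ≤ E0), (e v : ℝ) / (m v : ℝ) * w v ≤
      ∑ v ∈ S.filter (fun v => m v ≤ E0), (e v : ℝ) * w v := by
    refine Finset.sum_le_sum (fun v hv => ?_)
    have hvS := (Finset.mem_filter.1 hv).1
    refine mul_le_mul_of_nonneg_right ?_ (hw v hvS)
    refine div_le_self (Nat.cast_nonneg _) ?_
    exact_mod_cast hm v hvS
  have h3 : ∑ v ∈ S.filter (fun v => ¬ m v ≤ E0), (e v : ℝ) / (m v : ℝ) * w v ≤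
      ∑ v ∈ S, (e v : ℝ) * w v / (E0 : ℝ) := by
    refine (Finset.sum_le_sum (g := fun v => (e v : ℝ) * w v / (E0 : ℝ)) (fun v hv => ?_)).trans
      (Finset.sum_le_sum_of_subset_of_nonneg (Finset.filter_subset _ _) (fun v hv _ => ?_))
    · obtain ⟨hvS, hvm⟩ := Finset.mem_filter.1 hv
      have hlt : (E0 : ℝ) ≤ (m v : ℝ) := by exact_mod_cast (not_le.1 hvm).le
      rw [div_mul_eq_mul_div]
      exact div_le_div_of_nonneg_left (mul_nonneg (Nat.cast_nonneg _) (hw v hvS)) hE hlt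
    · exact div_nonneg (mul_nonneg (Nat.cast_nonneg _) (hw v hv)) hE.le
  rw [← Finset.sum_div] at h3
  have h4 : (∑ v ∈ S, (e v : ℝ) * w v) / (E0 : ℝ) ≤
      1 / 2 * ∑ v ∈ S, (e v : ℝ) / (m v : ℝ) * w v := by
    rw [div_le_iff₀ hE]
    calc ∑ v ∈ S, (e v : ℝ) * w v ≤ (E0 : ℝ) / 2 * ∑ v ∈ S, (e v : ℝ) / (m v : ℝ) * w v := hS
      _ = 1 / 2 * (∑ v ∈ S, (e v : ℝ) / (m v : ℝ) * w v) * (E0 : ℝ) := by ring
  linarith

end Pool.Agent.SZG.H39
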